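import Pool.Agent.H5.QH.Targets

/-!
# Totally isotropic subspaces and change of basis (row HINV)
-/

set_option autoImplicit false

open NumberField IsDedekindDomain Matrix Pool.Agent.H32.QC Pool.Agent.H34.N6 Pool.Agent.H5.QH

namespace Pool.Agent.H43.QH

theorem inv_key {F : Type} [Field F] {n r : ℕ} (A Q : Matrix (Fin n) (Fin n) F)
    (hQ : IsUnit Q.det) (h : TI (Qᵀ * A * Q) r) : TI A r := by
  obtain ⟨b, hb, h0⟩ := h
  refine ⟨fun i => Q *ᵥ b i, ?_, ?_⟩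
  · have hinj : Function.Injective Q.mulVec :=
      Matrix.mulVec_injective_iff_isUnit.2 ((Matrix.isUnit_iff_isUnit_det _).2 hQ)
    exact hb.map' Q.mulVecLin (LinearMap.ker_eq_bot.2 hinj)
  · intro i j
    have h1 := h0 i j
    rw [← Matrix.mulVec_mulVec, ← Matrix.mulVec_mulVec, Matrix.dotProduct_mulVec,
      Matrix.vecMul_transpose] at h1
    exact h1

theorem pf_INV : T_INV := by
  intro F _ n r A Q hQ
  refine ⟨inv_key A Q hQ, fun h => ?_⟩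
  have h1 : IsUnit (Q⁻¹).det := Matrix.isUnit_nonsing_inv_det Q hQ
  apply inv_key (Qᵀ * A * Q) Q⁻¹ h1
  have h2 : (Q⁻¹)ᵀ * (Qᵀ * A * Q) * Q⁻¹ = A := by
    have e1 : Q * Q⁻¹ = 1 := Matrix.mul_nonsing_inv Q hQ
    have e2 : (Q⁻¹)ᵀ * Qᵀ = 1 := by
      rw [← Matrix.transpose_mul, e1, Matrix.transpose_one]
    calc (Q⁻¹)ᵀ * (Qᵀ * A * Q) * Q⁻¹ = ((Q⁻¹)ᵀ * Qᵀ) * A * (Q * Q⁻¹) := by
          simp only [Matrix.mul_assoc]
      _ = A := by rw [e1, e2, Matrix.one_mul, Matrix.mul_one]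
  rw [h2]
  exact h

end Pool.Agent.H43.QH
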