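import Pool.Agent.H5.QH.Targets

/-!
# Split forms in an odd number of variables (row HSPG)
-/

set_option autoImplicit false

open NumberField IsDedekindDomain Matrix Pool.Agent.H32.QC Pool.Agent.H34.N6 Pool.Agent.H5.QH

namespace Pool.Agent.H43.QH

theorem spg_map {K F : Type} [Field K] [Field F] {n m : ℕ} (hI : T_INV) (ι : K →+* F)
    (A Q : Matrix (Fin n) (Fin n) K) (a : Fin n → K) (hQ : IsUnit Q.det)
    (h : Qᵀ * A * Q = diagonal a) (hA : TI (A.map ι) m) : TI (diagonal fun i => ι (a i)) m := by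
  have h1 : (Q.map ι)ᵀ * A.map ι * Q.map ι = diagonal fun i => ι (a i) := by
    have h2 : (Qᵀ * A * Q).map ι = (diagonal a).map ι := by rw [h]
    rw [Matrix.map_mul, Matrix.map_mul, Matrix.diagonal_map (map_zero ι),
      Matrix.transpose_map] at h2
    exact h2
  have h3 : IsUnit (Q.map ι).det := by
    have h4 : (Q.map ι).det = ι Q.det := (RingHom.map_det ι Q).symm
    rw [h4]
    exact hQ.map ι
  rw [← h1]
  exact (hI F n m (A.map ι) (Q.map ι) h3).2 hA

theorem pf_SPG (hD : T_DGN) (hI : T_INV) (hO : T_ODS) : T_SPG := by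
  intro K _ _ m A w₀ hA hdet hloc
  obtain ⟨a, Q, ha, hQ, h⟩ := hD K two_ne_zero (2 * m + 1) A hA hdet
  apply (hI K (2 * m + 1) m A Q hQ).1
  rw [h]
  apply hO K m a w₀ ha
  intro w hw
  have h1 := hloc w hw
  rcases w with v | φ
  · exact spg_map hI (ic v) A Q a hQ h h1
  · exact spg_map hI φ A Q a hQ h h1

end Pool.Agent.H43.QH
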